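import Pool.Agent.Run7.h676.SSg

/-!
# Local finiteness of 3-groups whose 2-generated subgroups have class at most nine

A 3-group in which every subgroup generated by two elements is nilpotent of class at most `9` is
locally finite.

The proof: let `R` be the locally finite radical, and pass to `G / R`, which has no nontrivial
locally finite normal subgroup.

1. If `⁅a, g * a * g⁻¹⁆` commutes with `a` for all `g`, then `a = 1` (`SSa` to `SSd`).  For
powers `y`, `z` of conjugates of `a` the commutator of the conjugates of `a` by `y` and by `z` has
order dividing `8`, so it is trivial, and a nilpotency theorem for such sets of elements applies.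
2. Let `G / R` have exponent `3 ^ (k + 1)` and `a = x ^ 3 ^ k`.  In class six `a` commutes with its
conjugates; this is a collection computation with certificates (`Three`).  In class nine, the
commutator `F = ⁅a, g * a * g⁻¹⁆` is hence an element of the seventh term of the lower central
series, from which `F ^ 3 = 1` and then `⁅F, a⁆ = 1` follow (`SSf`).
3. By 1 and 2 the exponent of `G / R` can be decreased until `G / R` is trivial.
-/

set_option autoImplicit false

/-- Let `G` be a group in which every element has order a power of `3`, and in which every two
elements generate a nilpotent subgroup of class at most `9`.  Then every finitely generated subgroup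
of `G` is finite. -/
theorem Pool.Agent.Results.MP_47409b_al.ThreeClassNine.result.{u} :
    ∀ (G : Type u) [Group G],
      (∀ g : G, ∃ k : ℕ, orderOf g = 3 ^ k) →
      (∀ a b : G, (Subgroup.closure ({a, b} : Set G)).lowerCentralSeries 9 = ⊥) →
      ∀ s : Finset G, ((Subgroup.closure (s : Set G) : Subgroup G) : Set G).Finite := by
  intro G _ h3 h9 s
  refine Run7.h676.SS.LF_three 1 (le_refl 1) ?_ (fun g => ?_) s (fun x _ => Subgroup.mem_top x)
  · intro x l hl
    obtain ⟨y, rfl⟩ := List.length_eq_one_iff.1 hl
    have e : ({x} ∪ {z | z ∈ [y]} : Set G) = {x, y} := by
      ext z
      simp [or_comm]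
    rw [e, Run7.h676.SS.c3_one]
    exact h9 x y
  · obtain ⟨k, hk⟩ := h3 g
    exact ⟨k, by rw [← hk]; exact pow_orderOf_eq_one g⟩
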